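import Mathlib
import Pool.Agent.Lib.helper22.ZScott

set_option autoImplicit false

namespace Pool.Agent.Results.MP_150402_gt.NotRegular

open H22ZS

theorem result : ∃ (Y Z : Type) (_ : TopologicalSpace Y) (_ : TopologicalSpace Z),
    RegularSpace Z ∧ T2Space Z ∧ ¬ @RegularSpace C(Y, Z) (t1Z Y Z) :=
  ⟨AF, Bool, inferInstance, inferInstance, inferInstance, inferInstance, not_regular⟩

end Pool.Agent.Results.MP_150402_gt.NotRegular
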